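import Pool.Agent.H99.AVR.FIN
import Pool.Agent.H14.AVS.S4

/-!
# AVS, module WUN: the unweighted counting inequality for one curve
-/

set_option autoImplicit false

namespace Pool.AVS

open Polynomial Matrix Pool.AVR Pool.AVR.FINaux

namespace WUNaux

theorem ia_map {R S : Type} [CommRing R] [CommRing S] (φ : R →+* S)
    (B : Matrix (Fin 3) (Fin 3) R) : ia (B.map φ) = φ (ia B) := by
  simp only [ia, Matrix.map_apply, map_neg, map_add, map_mul, map_ofNat]

theorem ib_map {R S : Type} [CommRing R] [CommRing S] (φ : R →+* S)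
    (B : Matrix (Fin 3) (Fin 3) R) : ib (B.map φ) = φ (ib B) := by
  simp only [ib, Matrix.map_apply, map_sub, map_add, map_mul, map_pow, map_ofNat]

theorem ic_map {R S : Type} [CommRing R] [CommRing S] (φ : R →+* S)
    (B : Matrix (Fin 3) (Fin 3) R) : ic (B.map φ) = φ (ic B) := by
  unfold ic
  rw [← RingHom.mapMatrix_apply, ← RingHom.map_det]

theorem two_ratfunc {F : Type} [Field F] (h2 : (2 : F) ≠ 0) : (2 : RatFunc F) ≠ 0 := by
  intro h
  apply h2
  have h3 : algebraMap F (RatFunc F) 2 = algebraMap F (RatFunc F) 0 := by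
    rw [map_ofNat, map_zero]
    exact h
  exact (algebraMap F (RatFunc F)).injective h3

theorem disc_map {R S : Type} [CommRing R] [CommRing S] (φ : R →+* S) (a b c : R) :
    disc (φ a) (φ b) (φ c) = φ (disc a b c) := by
  simp only [disc, map_add, map_sub, map_mul, map_pow, map_ofNat]

/-- the characteristic polynomial over `F[t]` -/
theorem charPH {F : Type} [Field F] (hCPH : CPHStmt) (hCHI : CHIStmt)
    (f : F[X] × F[X] × F[X]) (h : (RatFunc F)[X])
    (B : Matrix (Fin 3) (Fin 3) F[X]) (hB : Bᵀ = B)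
    (hR : RepH (kf f).1 (kf f).2.1 (kf f).2.2 h (AA (RatFunc F))
        (B.map (algebraMap F[X] (RatFunc F)))) :
    (AA F[X] * B).charpoly = cubP f := by
  obtain ⟨h1, h2, h3⟩ := hCPH (RatFunc F) _ _ _ h _ hR
  rw [ia_map] at h1
  rw [ib_map] at h2
  rw [ic_map] at h3
  have hinj : Function.Injective (algebraMap F[X] (RatFunc F)) := RatFunc.algebraMap_injective F
  have h1' := hinj h1
  have h2' := hinj h2
  have h3' := hinj h3
  exact ((hCHI F[X] B hB).2 f.1 f.2.1 f.2.2).2 ⟨h1', h2', h3'⟩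

end WUNaux

open WUNaux

open Classical in
theorem wun_thm (hSEH : SEHStmt) (hKYS : KYSStmt) (hCLE : CLEStmt) (hINH : INHStmt)
    (hTRC : TRCStmt) (hACT : ACTStmt) (hGRE : GREStmt) (hCNB : CNBStmt) (hCHI : CHIStmt)
    (hCPH : CPHStmt) (hCHH : CHHStmt) (hDSC : DSCStmt) : WUNStmt := by
  intro F _ _ h2 n k f hf hstab
  have h2K : (2 : RatFunc F) ≠ 0 := two_ratfunc h2
  have hsepK : (cub (kf f).1 (kf f).2.1 (kf f).2.2).Separable := by
    rw [(hDSC (RatFunc F) h2K _ _ _).1]
    show disc (algebraMap F[X] (RatFunc F) f.1) (algebraMap F[X] (RatFunc F) f.2.1)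
        (algebraMap F[X] (RatFunc F) f.2.2) ≠ 0
    rw [disc_map]
    exact (map_ne_zero_iff _ (RatFunc.algebraMap_injective F)).2 hf.2
  set T : Set ((Alg f)ˣ ⧸ Sq f) := Sel f \ {1} with hT
  -- the choice of representatives
  have key : ∀ p : ↥T, ∃ (m : ℕ) (B : Matrix (Fin 3) (Fin 3) F[X]) (h : (RatFunc F)[X])
      (u : (Alg f)ˣ), m ≤ n ∧ Bd n m B ∧ (u : Alg f) = AdjoinRoot.mk (cubK f) h ∧
      QuotientGroup.mk u = p.1 ∧
      RepH (kf f).1 (kf f).2.1 (kf f).2.2 h (AA (RatFunc F))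
        (B.map (algebraMap F[X] (RatFunc F))) := by
    rintro ⟨ξ, hξ, hξ1⟩
    obtain ⟨h, u, hcop, hu, hmk, hsq, hP, hi⟩ := (hSEH F h2 f).1 ξ hξ
    obtain ⟨m, B, hBd, hR⟩ := hKYS F h2 n f hf.1 h hcop hsq hP hi
    refine ⟨m, B, h, u, ?_, hBd, hu, hmk, hR⟩
    by_contra hmn
    push Not at hmn
    have hB0 : B 0 0 = 0 := by
      by_contra h0
      have := hBd.2 0 0 h0
      simp only [dd, Matrix.cons_val_zero] at this
      omega
    have hex : ∃ z : Fin 3 → RatFunc F, z ≠ 0 ∧ bil (AA (RatFunc F)) z z = 0 ∧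
        bil (B.map (algebraMap F[X] (RatFunc F))) z z = 0 := by
      refine ⟨![1, 0, 0], ?_, ?_, ?_⟩
      · intro h0
        have := congrFun h0 0
        simp at this
      · simp [bil, AA, Matrix.mulVec, dotProduct, Fin.sum_univ_three]
      · simp [bil, Matrix.mulVec, dotProduct, Fin.sum_univ_three, hB0]
    obtain ⟨s, hs⟩ := (hTRC (RatFunc F) h2K _ _ _ h _ hsepK hR).2 hex
    apply hξ1
    rw [Set.mem_singleton_iff, ← hmk]
    have h1 : ((1 : (Alg f)ˣ) : Alg f) = AdjoinRoot.mk (cubK f) 1 := by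
      rw [map_one]; rfl
    have := (hCLE F f h 1 u 1 hu h1).2 ⟨s, by rw [one_mul]; exact hs⟩
    rw [this]
    rfl
  choose mm BB hh uu hmn hBd hu hmk hRep using key
  have hch : ∀ p : ↥T, (AA F[X] * BB p).charpoly = cubP f := fun p =>
    charPH hCPH hCHI f (hh p) (BB p) (hBd p).1 (hRep p)
  -- uniqueness
  have core : ∀ (p p' : ↥T) (g g' : Matrix (Fin 3) (Fin 3) F[X]),
      gᵀ * AA F[X] * g = AA F[X] → g'ᵀ * AA F[X] * g' = AA F[X] →
      gᵀ * BB p * g = g'ᵀ * BB p' * g' → p = p' := by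
    intro p p' g g' hg hg' he
    have hR1 : ∀ (q : ↥T) (l : Matrix (Fin 3) (Fin 3) F[X]),
        lᵀ * AA F[X] * l = AA F[X] →
        RepH (kf f).1 (kf f).2.1 (kf f).2.2 (hh q) (AA (RatFunc F))
          ((lᵀ * BB q * l).map (algebraMap F[X] (RatFunc F))) := by
      intro q l hl
      have := hCHH (RatFunc F) _ _ _ _ _ _ (l.map (algebraMap F[X] (RatFunc F))) (hRep q)
      have e1 : (l.map (algebraMap F[X] (RatFunc F)))ᵀ * AA (RatFunc F) *
          (l.map (algebraMap F[X] (RatFunc F))) = AA (RatFunc F) := by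
        rw [← AA_map (algebraMap F[X] (RatFunc F)), ← Matrix.transpose_map]
        rw [← Matrix.map_mul, ← Matrix.map_mul, hl]
      have e2 : (l.map (algebraMap F[X] (RatFunc F)))ᵀ *
          (BB q).map (algebraMap F[X] (RatFunc F)) * (l.map (algebraMap F[X] (RatFunc F))) =
          (lᵀ * BB q * l).map (algebraMap F[X] (RatFunc F)) := by
        rw [← Matrix.transpose_map, ← Matrix.map_mul, ← Matrix.map_mul]
      rw [e1, e2] at this
      exact this
    have r1 := hR1 p g hg
    have r2 := hR1 p' g' hg'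
    rw [he] at r1
    obtain ⟨s, -, hs⟩ := hINH (RatFunc F) h2K _ _ _ _ _ _ r1 r2
    have hE := (hCLE F f (hh p) (hh p') (uu p) (uu p') (hu p) (hu p')).2 ⟨s, hs⟩
    rw [hmk p, hmk p'] at hE
    exact Subtype.ext hE
  have hone : (1 : Matrix (Fin 3) (Fin 3) F[X])ᵀ * AA F[X] * 1 = AA F[X] := by simp
  have BBinj : Function.Injective BB := by
    intro p p' h
    exact core p p' 1 1 hone hone (by simp [h])
  have hUfin : (⋃ m ∈ Finset.range (n + 1),
      {B : Matrix (Fin 3) (Fin 3) F[X] | Bd n m B}).Finite := by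
    refine Set.Finite.biUnion (Finset.finite_toSet _) ?_
    intro m hm
    have : m ≤ n := by
      have := Finset.mem_range.mp (Finset.mem_coe.mp hm)
      omega
    exact (hCNB F n m this).1
  have hPfin : Finite ↥T := by
    have hmem : ∀ p, BB p ∈ (⋃ m ∈ Finset.range (n + 1),
        {B : Matrix (Fin 3) (Fin 3) F[X] | Bd n m B}) := by
      intro p
      simp only [Set.mem_iUnion]
      exact ⟨mm p, Finset.mem_range.mpr (Nat.lt_succ_of_le (hmn p)), hBd p⟩
    have := hUfin.to_subtype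
    exact Finite.of_injective (fun p => (⟨BB p, hmem p⟩ : (⋃ m ∈ Finset.range (n + 1),
        {B : Matrix (Fin 3) (Fin 3) F[X] | Bd n m B} : Set _))) (fun p p' h => BBinj (by
          simpa using h))
  have hTfin : T.Finite := Set.toFinite T
  have hSelfin : (Sel f).Finite := by
    refine (hTfin.union (Set.finite_singleton (1 : (Alg f)ˣ ⧸ Sq f))).subset ?_
    intro ξ hξ
    by_cases h1 : ξ = 1
    · exact Or.inr h1
    · exact Or.inl ⟨hξ, h1⟩
  refine ⟨hSelfin, ?_⟩
  have : Fintype ↥T := hTfin.fintype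
  have hsum : (T.ncard : ℝ) = (Fintype.card ↥T : ℝ) := by
    rw [← Nat.card_coe_set_eq, Nat.card_eq_fintype_card]
  have hGfin : ∀ m, (GG F m).Finite := (hGRE F h2).1
  have hG1 : ∀ m, (1 : Matrix (Fin 3) (Fin 3) F[X]) ∈ GG F m := by
    intro m
    refine ⟨hone, Matrix.det_one, ?_⟩
    intro i j h
    by_cases hij : i = j
    · subst hij
      simp
    · exact absurd (Matrix.one_apply_ne hij) h
  have hcount : ∀ m ∈ Finset.range (n + 1),
      ((Finset.univ.filter (fun p : ↥T => mm p = m)).card : ℝ) ≤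
        k * (({B : Matrix (Fin 3) (Fin 3) F[X] | Bd n m B ∧
          (AA F[X] * B).charpoly = cubP f}.ncard : ℝ) / (GG F m).ncard) := by
    intro m hm
    have hmn' : m ≤ n := Nat.lt_succ_iff.mp (Finset.mem_range.mp hm)
    set NB : Set (Matrix (Fin 3) (Fin 3) F[X]) := {B : Matrix (Fin 3) (Fin 3) F[X] | Bd n m B ∧
          (AA F[X] * B).charpoly = cubP f} with hNB
    have hNBf : NB.Finite := (hCNB F n m hmn').1.subset fun B hB => hB.1
    set Pm := Finset.univ.filter (fun p : ↥T => mm p = m) with hPm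
    set Gm := (hGfin m).toFinset with hGm
    have hGc : (GG F m).ncard = Gm.card := Set.ncard_eq_toFinset_card _ (hGfin m)
    have hGpos : 0 < Gm.card := by
      refine Finset.card_pos.mpr ⟨1, ?_⟩
      rw [hGm, Set.Finite.mem_toFinset]
      exact hG1 m
    set φ : ↥T × Matrix (Fin 3) (Fin 3) F[X] → Matrix (Fin 3) (Fin 3) F[X] :=
      fun z => z.2ᵀ * BB z.1 * z.2 with hφ
    have hcard : (Pm ×ˢ Gm).card ≤ k * ((Pm ×ˢ Gm).image φ).card := by
      refine Finset.card_le_mul_card_image _ _ ?_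
      intro a ha
      obtain ⟨⟨p₀, g₀⟩, hz₀, rfl⟩ := Finset.mem_image.mp ha
      rw [Finset.mem_product] at hz₀
      have hg₀ : g₀ ∈ GG F m := (Set.Finite.mem_toFinset _).mp hz₀.2
      obtain ⟨hfin, hle⟩ := hstab (BB p₀) (hBd p₀).1 (hch p₀)
      refine le_trans ?_ hle
      rw [Set.ncard_eq_toFinset_card _ hfin]
      refine Finset.card_le_card_of_injOn (fun z => z.2 * (AA F[X] * g₀ᵀ * AA F[X])) ?_ ?_
      · rintro ⟨p, g⟩ hz
        have hz' := Finset.mem_filter.mp (Finset.mem_coe.mp hz)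
        have hz1 := Finset.mem_product.mp hz'.1
        have hg : g ∈ GG F m := (Set.Finite.mem_toFinset _).mp hz1.2
        have hzz : gᵀ * BB p * g = g₀ᵀ * BB p₀ * g₀ := hz'.2
        have hpp : p = p₀ := core p p₀ g g₀ hg.1 hg₀.1 hzz
        subst hpp
        rw [Finset.mem_coe, Set.Finite.mem_toFinset]
        exact stab_of hg.1 hg₀.1 hg.2.1 hg₀.2.1 hzz
      · rintro ⟨p, g⟩ hz ⟨p', g'⟩ hz' he
        have hz1 := Finset.mem_filter.mp (Finset.mem_coe.mp hz)
        have hz1' := Finset.mem_filter.mp (Finset.mem_coe.mp hz')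
        have hz2 := Finset.mem_product.mp hz1.1
        have hz2' := Finset.mem_product.mp hz1'.1
        have hg : g ∈ GG F m := (Set.Finite.mem_toFinset _).mp hz2.2
        have hg' : g' ∈ GG F m := (Set.Finite.mem_toFinset _).mp hz2'.2
        have hzz : gᵀ * BB p * g = g₀ᵀ * BB p₀ * g₀ := hz1.2
        have hzz' : g'ᵀ * BB p' * g' = g₀ᵀ * BB p₀ * g₀ := hz1'.2
        have hpp : p = p₀ := core p p₀ g g₀ hg.1 hg₀.1 hzz
        have hpp' : p' = p₀ := core p' p₀ g' g₀ hg'.1 hg₀.1 hzz'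
        subst hpp
        subst hpp'
        have : g = g' := stab_inj hg₀.1 he
        rw [this]
    have himg : ((Pm ×ˢ Gm).image φ).card ≤ NB.ncard := by
      rw [Set.ncard_eq_toFinset_card _ hNBf]
      refine Finset.card_le_card ?_
      intro a ha
      obtain ⟨⟨p, g⟩, hz, rfl⟩ := Finset.mem_image.mp ha
      rw [Finset.mem_product] at hz
      have hg : g ∈ GG F m := (Set.Finite.mem_toFinset _).mp hz.2
      have hp : mm p = m := (Finset.mem_filter.mp hz.1).2
      rw [Set.Finite.mem_toFinset]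
      refine ⟨hACT F n m (BB p) g (hp ▸ hBd p) hg, ?_⟩
      exact (charpoly_conj hg.1).trans (hch p)
    have hfinal : Pm.card * Gm.card ≤ k * NB.ncard := by
      rw [← Finset.card_product]
      exact hcard.trans (Nat.mul_le_mul_left k himg)
    rw [hGc, ← mul_div_assoc, le_div_iff₀ (by exact_mod_cast hGpos)]
    exact_mod_cast hfinal
  calc (T.ncard : ℝ) = (Fintype.card ↥T : ℝ) := hsum
    _ = ∑ m ∈ Finset.range (n + 1),
        ((Finset.univ.filter (fun p : ↥T => mm p = m)).card : ℝ) := by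
        rw [← Finset.card_univ, Finset.card_eq_sum_card_fiberwise (f := mm)
          (t := Finset.range (n + 1))]
        · push_cast
          rfl
        · intro p _
          exact Finset.mem_coe.mpr (Finset.mem_range.mpr (Nat.lt_succ_of_le (hmn p)))
    _ ≤ ∑ m ∈ Finset.range (n + 1),
        k * (({B : Matrix (Fin 3) (Fin 3) F[X] | Bd n m B ∧
          (AA F[X] * B).charpoly = cubP f}.ncard : ℝ) / (GG F m).ncard) :=
        Finset.sum_le_sum hcount
    _ = _ := by rw [Finset.mul_sum]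

end Pool.AVS
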